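import Pool.Agent.H717.PM.Stm

/-!
# Certificates give trees (soundness of the three verifiers)
-/

set_option autoImplicit false

namespace Pool.Agent.H791.PM

open Pool.Agent.H717.PM
open Pool.Agent.NPC Pool.Agent.H622R2
open Pool.Agent.R39.PCG (WTree IsInterval IsOrPCG IsAndPCG IsIntervalPCG)

theorem tm_of_okD {n : ℕ} {M : List (List ℕ)} (h : okD n M = true) :
    TM n (fun x y => (ent M x y : ℝ)) := by
  unfold okD at h
  simp only [List.all_eq_true, List.mem_range, Bool.and_eq_true, Bool.or_eq_true,
    decide_eq_true_eq] at h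
  refine ⟨?_, ?_, ?_, ?_⟩
  · intro x hx y hy
    have := ((h x hx).2 y hy).1
    simp only [this]
  · intro x hx
    have := (h x hx).1
    simp only [this, Nat.cast_zero]
  · intro x _ y _
    exact Nat.cast_nonneg _
  · intro x hx y hy z hz w hw
    rcases ((h x hx).2 y hy).2 z hz w hw with h1 | h1
    · left
      exact_mod_cast h1
    · right
      exact_mod_cast h1

theorem inI_iff (e : List (List ℕ) × (ℕ × ℕ)) (x y : ℕ) :
    inI e x y = true ↔ ((ent e.1 x y : ℕ) : ℝ) ∈ Set.Icc ((e.2.1 : ℕ) : ℝ) ((e.2.2 : ℕ) : ℝ) := by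
  unfold inI
  simp only [Bool.and_eq_true, decide_eq_true_eq, Set.mem_Icc, Nat.cast_le]

theorem isInterval_Icc (a b : ℕ) : IsInterval (Set.Icc (a : ℝ) (b : ℝ)) :=
  ⟨Set.ordConnected_Icc, fun _ hx => le_trans (Nat.cast_nonneg a) hx.1⟩

theorem isInterval_empty : IsInterval (∅ : Set ℝ) :=
  ⟨Set.ordConnected_empty, Set.empty_subset _⟩

theorem adj_iff (M : List (List Bool)) (u v : Fin M.length) (huv : u ≠ v) :
    (matGraph M).Adj u v ↔ adjM M u v = true := by
  unfold adjM
  simp only [Bool.or_eq_true]
  constructor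
  · intro h
    exact h.2
  · intro h
    exact ⟨huv, h⟩

/-- the entry with the number `min i (length - 1)` -/
theorem min_lt {l : ℕ} (hl : l ≠ 0) (i : ℕ) : min i (l - 1) < l := by omega

theorem t_sound (h : S_bun) : S_sound := by
  refine ⟨?_, ?_, ?_⟩
  · rintro ⟨M, k⟩ cs hc
    unfold chkOr at hc
    simp only [Bool.and_eq_true, Bool.not_eq_true', decide_eq_true_eq, decide_eq_false_iff_not,
      List.all_eq_true, List.mem_range, Bool.or_eq_true] at hc
    obtain ⟨⟨hk, hn1⟩, hc0, hck, hok, hadj⟩ := hc
    refine ⟨hk, ?_⟩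
    have hτ : ∀ e ∈ cs, ∃ τ : WTree (Fin M.length), ∀ u v : Fin M.length,
        τ.d u v = ((ent e.1 u v : ℕ) : ℝ) := by
      intro e he
      exact h M.length hn1 _ (tm_of_okD (hok e he))
    have hne : Nonempty (WTree (Fin M.length)) := by
      have hpos : 0 < cs.length := Nat.pos_of_ne_zero hc0
      exact ⟨(hτ _ (List.getElem_mem hpos)).choose⟩
    choose! τ hτ using hτ
    have hg : ∀ i : ℕ, cs[min i (cs.length - 1)]'(min_lt hc0 i) ∈ cs :=
      fun i => List.getElem_mem _
    refine ⟨fun i => τ (cs[min i.1 (cs.length - 1)]'(min_lt hc0 i.1)),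
      fun i => Set.Icc (((cs[min i.1 (cs.length - 1)]'(min_lt hc0 i.1)).2.1 : ℕ) : ℝ)
        (((cs[min i.1 (cs.length - 1)]'(min_lt hc0 i.1)).2.2 : ℕ) : ℝ),
      fun i => isInterval_Icc _ _, ?_⟩
    intro u v huv
    rw [adj_iff M u v huv]
    rcases hadj u u.2 v v.2 with h1 | h1
    · exact absurd (Fin.ext h1) huv
    · rw [h1, List.any_eq_true]
      constructor
      · rintro ⟨e, he, hin⟩
        obtain ⟨i, hi, rfl⟩ := List.getElem_of_mem he
        refine ⟨⟨i, lt_of_lt_of_le hi hck⟩, ?_⟩
        have hmin : min i (cs.length - 1) = i := by omega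
        have hge : cs[min i (cs.length - 1)]'(min_lt hc0 i) = cs[i] := by
          congr 1
        simp only [hge]
        rw [hτ _ he u v]
        exact (inI_iff _ _ _).1 hin
      · rintro ⟨i, hi⟩
        refine ⟨_, hg i.1, ?_⟩
        rw [inI_iff]
        rw [← hτ _ (hg i.1) u v]
        exact hi
  · rintro ⟨M, k⟩ cs hc
    unfold chkAnd at hc
    simp only [Bool.and_eq_true, Bool.not_eq_true', decide_eq_true_eq, decide_eq_false_iff_not,
      List.all_eq_true, List.mem_range, Bool.or_eq_true] at hc
    obtain ⟨⟨hk, hn1⟩, hc0, hck, hok, hadj⟩ := hc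
    refine ⟨hk, ?_⟩
    have hτ : ∀ e ∈ cs, ∃ τ : WTree (Fin M.length), ∀ u v : Fin M.length,
        τ.d u v = ((ent e.1 u v : ℕ) : ℝ) := by
      intro e he
      exact h M.length hn1 _ (tm_of_okD (hok e he))
    have hne : Nonempty (WTree (Fin M.length)) := by
      have hpos : 0 < cs.length := Nat.pos_of_ne_zero hc0
      exact ⟨(hτ _ (List.getElem_mem hpos)).choose⟩
    choose! τ hτ using hτ
    have hg : ∀ i : ℕ, cs[min i (cs.length - 1)]'(min_lt hc0 i) ∈ cs :=
      fun i => List.getElem_mem _
    refine ⟨fun i => τ (cs[min i.1 (cs.length - 1)]'(min_lt hc0 i.1)),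
      fun i => Set.Icc (((cs[min i.1 (cs.length - 1)]'(min_lt hc0 i.1)).2.1 : ℕ) : ℝ)
        (((cs[min i.1 (cs.length - 1)]'(min_lt hc0 i.1)).2.2 : ℕ) : ℝ),
      fun i => isInterval_Icc _ _, ?_⟩
    intro u v huv
    rw [adj_iff M u v huv]
    rcases hadj u u.2 v v.2 with h1 | h1
    · exact absurd (Fin.ext h1) huv
    · rw [h1, List.all_eq_true]
      constructor
      · intro hall i
        have := (inI_iff _ _ _).1 (hall _ (hg i.1))
        rw [← hτ _ (hg i.1) u v] at this
        exact this
      · intro hall e he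
        obtain ⟨i, hi, rfl⟩ := List.getElem_of_mem he
        have h2 := hall ⟨i, lt_of_lt_of_le hi hck⟩
        have hmin : min i (cs.length - 1) = i := by omega
        have hge : cs[min i (cs.length - 1)]'(min_lt hc0 i) = cs[i] := by
          congr 1
        simp only [hge] at h2
        rw [hτ _ he u v] at h2
        exact (inI_iff _ _ _).2 h2
  · rintro ⟨M, k⟩ ⟨D, cs⟩ hc
    unfold chkInt at hc
    simp only [Bool.and_eq_true, Bool.not_eq_true', decide_eq_true_eq, decide_eq_false_iff_not,
      List.all_eq_true, List.mem_range, Bool.or_eq_true] at hc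
    obtain ⟨⟨hk, hn1⟩, hok, hck, hdis, hadj⟩ := hc
    refine ⟨hk, ?_⟩
    obtain ⟨τ, hτ⟩ := h M.length hn1 _ (tm_of_okD hok)
    refine ⟨τ, fun i => if hi : i.1 < cs.length then
      Set.Icc (((cs[i.1]'hi).1 : ℕ) : ℝ) (((cs[i.1]'hi).2 : ℕ) : ℝ) else ∅, ?_, ?_, ?_⟩
    · intro i
      by_cases hi : i.1 < cs.length
      · simp only [hi, dif_pos]
        exact isInterval_Icc _ _
      · simp only [hi, dif_neg, not_false_eq_true]
        exact isInterval_empty
    · intro i j hij
      by_cases hi : i.1 < cs.length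
      · by_cases hj : j.1 < cs.length
        · simp only [hi, hj, dif_pos]
          have hne : i.1 ≠ j.1 := fun hh => hij (Fin.ext hh)
          rcases hdis i.1 hi j.1 hj with h1 | h1
          · exact absurd h1 hne
          · rw [List.getD_eq_getElem _ _ hi, List.getD_eq_getElem _ _ hj] at h1
            rw [Set.disjoint_left]
            intro x hx hx'
            rcases h1 with h1 | h1
            · have h2 : (((cs[i.1]'hi).2 : ℕ) : ℝ) < (((cs[j.1]'hj).1 : ℕ) : ℝ) := by
                exact_mod_cast h1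
              linarith [hx.2, hx'.1]
            · have h2 : (((cs[j.1]'hj).2 : ℕ) : ℝ) < (((cs[i.1]'hi).1 : ℕ) : ℝ) := by
                exact_mod_cast h1
              linarith [hx.1, hx'.2]
        · simp only [hj, dif_neg, not_false_eq_true]
          exact Set.disjoint_empty _
      · simp only [hi, dif_neg, not_false_eq_true]
        exact Set.empty_disjoint _
    · intro u v huv
      rw [adj_iff M u v huv]
      rcases hadj u u.2 v v.2 with h1 | h1
      · exact absurd (Fin.ext h1) huv
      · rw [h1, List.any_eq_true]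
        constructor
        · rintro ⟨e, he, hin⟩
          obtain ⟨i, hi, rfl⟩ := List.getElem_of_mem he
          refine ⟨⟨i, lt_of_lt_of_le hi hck⟩, ?_⟩
          have hi' : (⟨i, lt_of_lt_of_le hi hck⟩ : Fin k).1 < cs.length := hi
          simp only [hi, dif_pos]
          rw [hτ u v]
          exact (inI_iff _ _ _).1 hin
        · rintro ⟨i, hi⟩
          by_cases hi' : i.1 < cs.length
          · simp only [hi', dif_pos] at hi
            refine ⟨cs[i.1]'hi', List.getElem_mem _, ?_⟩
            rw [inI_iff]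
            rw [hτ u v] at hi
            exact hi
          · simp only [hi', dif_neg, not_false_eq_true] at hi
            exact absurd hi (Set.notMem_empty _)

end Pool.Agent.H791.PM
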